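import Pool.Agent.T2h66.LV.Main
import Pool.Agent.T2h66.LL.TP
import Pool.Agent.T2h05.LL.FE
import Pool.Agent.T2h09.LL.CF
import Pool.Agent.T2h20.LL.NO
import Pool.Agent.T2h21.LL.C0
import Pool.Agent.T2h38.LL.CO
import Pool.Agent.T2h38.LL.TV
import Pool.Agent.T2h59.LL.AQ
import Pool.Agent.T2h59.LL.IF
import Pool.Agent.T2h60.LL.LD
import Pool.Agent.T2h60.LL.LE
import Pool.Agent.T2h69.LL.LB
import Pool.Agent.T2h93.LL.CN
import Pool.Agent.T2h93.LL.UQ
import Pool.Agent.T3H29.LL.FQ
import Pool.Agent.T3H29.LL.UN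
import Pool.Agent.T3h64.LL.AV
import Pool.Agent.T3h64.LL.P2

/-!
# `MP_5ae62c_nt`: the negated form of Q1

We take `F = K_∞ = F_2((1/t))`, `K = F_2(t)`, `G = GL_2` (split, `Γ` trivial) and the standard
representation `ρ` of `GL_2(ℂ)`, `n = 2`. The unramified lifting is the identity, and a global
lifting of an automorphic representation `π` of `GL_2(𝔸)` is an isobaric automorphic representation
`π'` with `π'_y = π_y` at all places `y` at which `π` is unramified. We show that there is no map
`Irr(GL_2(F)) → Irr(GL_2(F))` which predicts the components at `∞` of the global liftings.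

The proof constructs two automorphic representations with the same component at `∞`, the Steinberg
representation:

* the constituent `π` of the space of automorphic forms (of the representation induced from
  `|.|^(1/2)`, `|.|^(-1/2)`) with the component `St` at `∞` and the trivial representation at all
  other places. It is a subquotient of the space generated by `f(g) = E(g w) - E(g)`, where `E` is
  the function `4 * 2^n - 3 n` of the invariant `n` of
  `GL_2(A) \ GL_2(K_∞) / K_∞ˣ GL_2(O) = {0, 1, 2, ...}`, `A = F_2[t]`. Its global lifting is the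
  trivial representation, the isobaric sum of `|.|^(1/2)` and `|.|^(-1/2)`;
* a cuspidal representation `π'` of level `t (t + 1)` with component `St` at `∞`, which is
  its own global lifting.

Proof by helper5, helper9, helper20, helper21, helper29, helper38, helper59, helper60, helper64,
helper66, helper69 and helper93.
-/

set_option autoImplicit false

noncomputable section

open scoped Polynomial WithZero
open IsDedekindDomain

namespace Pool.Agent.Results.MP_5ae62c_nt.NoLocalLifting

open Pool.Agent.T2h66.LV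

open Pool.Agent.T2h66.LL (S_IN S_AP S_AQ S_ID S_IF S_TP S_LA S_LP S_LB S_LC S_LD S_LE S_CN S_RE S_UQ
  S_TI S_UN S_FE S_AV S_FQ S_NO S_TV S_CO S_C0 S_CF S_P1 S_P2 t_TP t_LA t_LP t_LB t_TI t_FE t_NO
  t_P1)

/-- There is no map `l` on the set of isomorphism classes of irreducible smooth representations of
`GL_2(F)`, `F = F_2((1/t))`, such that for all automorphic representations `π` of `GL_2` over
`K = F_2(t)` and all isobaric automorphic representations `π'` which are global liftings of `π` for
the standard representation, the component of `π'` at `∞` is the image under `l` of the component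
of `π` at `∞`. -/
theorem result :
    ¬ ∃ l : Irr (G2 Ki) → Irr (G2 Ki), (∀ σ τ, Iso σ τ → Iso (l σ) (l τ)) ∧
      ∀ π π' : Irr GA, IsAutomorphic π → IsIsobaric π' → IsLift π π' →
        ∀ σ τ : Irr (G2 Ki), HasComp atI π σ → HasComp atI π' τ → Iso τ (l σ) := by
  have hIN : S_IN := Pool.Agent.T2h59.LL.t_IN
  have hAP : S_AP := Pool.Agent.T2h59.LL.t_AP
  have hAQ : S_AQ := Pool.Agent.T2h59.LL.t_AQ hAP
  have hID : S_ID := Pool.Agent.T2h59.LL.t_ID
  have hIF : S_IF := Pool.Agent.T2h59.LL.t_IF
  have hTP : S_TP := t_TP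
  have hLA : S_LA := t_LA
  have hLP : S_LP := t_LP hLA
  have hLB : S_LB := t_LB hLA hLP
  have hLC : S_LC := Pool.Agent.T2h38.LL.t_LC hLB
  have hLD : S_LD := Pool.Agent.T2h60.LL.t_LD hLA hLP
  have hLE : S_LE := Pool.Agent.T2h60.LL.t_LE hLA hLP
  have hCN : S_CN := Pool.Agent.T2h93.LL.t_CN hAQ hID
  have hRE : S_RE := Pool.Agent.T2h93.LL.t_RE hIF
  have hUQ : S_UQ := Pool.Agent.T2h93.LL.t_UQ hIN hIF
  have hTI : S_TI := t_TI hIF
  have hUN : S_UN := Pool.Agent.T3H29.LL.t_UN hCN hRE hIF
  have hFE : S_FE := t_FE hCN hRE hUQ hIF hTI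
  have hAV : S_AV := Pool.Agent.T3h64.LL.t_AV hUN hTI hAP hAQ
  have hFQ : S_FQ := Pool.Agent.T3H29.LL.t_FQ hAP hAQ hIF hTP
  have hNO : S_NO := t_NO hIF
  have hTV : S_TV := Pool.Agent.T2h38.LL.t_TV hNO hIF
  have hCO : S_CO := Pool.Agent.T2h38.LL.t_CO hLC hIF
  have hC0 : S_C0 := Pool.Agent.T2h21.LLC0.t_C0 hAP hIN
  have hCF : S_CF := Pool.Agent.T2h09.LL.t_CF hC0 hCN hIN hIF
  have hP1 : S_P1 := t_P1 hLB hLD hFE hAV hTP hIF
  have hP2 : S_P2 :=
    Pool.Agent.T3h64.LL.t_P2 hCF Pool.Agent.T2h38.LL.t_ZO hLA hLP hLD hFQ hTP hIF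
  exact main hP1 hP2 hCO hLB hLE hTV hIF

end Pool.Agent.Results.MP_5ae62c_nt.NoLocalLifting
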